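import Mathlib
import Pool.Agent.L7lead.Mon.Data

/-! # The check of the table -/

set_option autoImplicit false
set_option maxRecDepth 100000

namespace Pool.Agent.L7lead.Mon

theorem chk0 : ((List.range 3).all fun b => (List.range 3).all fun c => (List.range 6).all fun d =>
    chk 0 b c d) = true := by decide +kernel

theorem chk1 : ((List.range 3).all fun b => (List.range 3).all fun c => (List.range 6).all fun d =>
    chk 1 b c d) = true := by decide +kernel

theorem chk2 : ((List.range 3).all fun b => (List.range 3).all fun c => (List.range 6).all fun d =>
    chk 2 b c d) = true := by decide +kernel

theorem chk3 : ((List.range 3).all fun b => (List.range 3).all fun c => (List.range 6).all fun d =>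
    chk 3 b c d) = true := by decide +kernel

theorem chk4 : ((List.range 3).all fun b => (List.range 3).all fun c => (List.range 6).all fun d =>
    chk 4 b c d) = true := by decide +kernel

theorem chkR_all : ((List.range 14).all fun n => (List.range (n + 1)).all fun r => chkR n r) =
    true := by decide +kernel

theorem chkPos_all : chkPos = true := by decide +kernel

end Pool.Agent.L7lead.Mon
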