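import Mathlib
import Pool.Agent.L7lead.Mon.Check

/-! # The Schur expansion of the colour counts -/

set_option autoImplicit false

namespace Pool.Agent.L7lead.Mon

open Finset Pool.Agent.R850.FG

theorem rows_spec (z : ℕ) (ts : List (ℤ × ℕ)) : ∀ (R : List (List ℕ)) (j0 j : ℕ) (row : List ℕ),
    rows z ts R j0 = true → R[j]? = some row →
    (row.map (dig z)).sum = (ts.map fun t => t.1 * dig t.2 (j0 + j)).sum
  | [], _, _, _, _, h => by simp at h
  | r0 :: R, j0, j, row, h1, h2 => by
    rw [rows, Bool.and_eq_true, decide_eq_true_eq] at h1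
    rcases j with _ | j
    · simp only [List.getElem?_cons_zero, Option.some.injEq] at h2
      subst h2
      rw [h1.1]
      simp
    · simp only [List.getElem?_cons_succ] at h2
      rw [rows_spec z ts R (j0 + 1) j row h1.2 h2]
      rw [show j0 + 1 + j = j0 + (j + 1) by ring]

/-- sum over subsets, by size -/
def TN (w : ℕ) (h : ℕ → ℕ) : ℕ := ∑ i ∈ range (w + 1), w.choose i * h i

/-- sum over subsets, by size -/
def TZ (w : ℕ) (h : ℕ → ℤ) : ℤ := ∑ i ∈ range (w + 1), (w.choose i : ℤ) * h i

theorem TN_cast (w : ℕ) (h : ℕ → ℕ) : ((TN w h : ℕ) : ℤ) = TZ w fun i => (h i : ℤ) := by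
  unfold TN TZ
  push_cast
  rfl

theorem TZ_congr (w : ℕ) {h h' : ℕ → ℤ} (H : ∀ i ≤ w, h i = h' i) : TZ w h = TZ w h' := by
  unfold TZ
  refine Finset.sum_congr rfl fun i hi => ?_
  rw [H i (by rw [mem_range] at hi; omega)]

theorem TZ_sum {ι : Type*} (w : ℕ) (s : Finset ι) (x : ι → ℤ) (h : ι → ℕ → ℤ) :
    TZ w (fun i => ∑ ν ∈ s, x ν * h ν i) = ∑ ν ∈ s, x ν * TZ w (h ν) := by
  unfold TZ
  simp_rw [Finset.mul_sum]
  rw [Finset.sum_comm]
  refine Finset.sum_congr rfl fun ν _ => Finset.sum_congr rfl fun i _ => ?_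
  ring

/-- the numbers of vertices of a stable set in the four parts of the path -/
def st (i j p q : ℕ) : Prop := (i = 0 ∨ j = 0) ∧ (j = 0 ∨ p = 0) ∧ (p = 0 ∨ q = 0)

instance (i j p q : ℕ) : Decidable (st i j p q) := by unfold st; infer_instance

/-- The number of proper colourings of the blow-up of the path with given colour contents. -/
def Nc (m : ℕ → ℕ) : ℕ → ℕ → ℕ → ℕ → ℕ → ℕ
  | 0, a, b, c, d => if a = 0 ∧ b = 0 ∧ c = 0 ∧ d = 0 then 1 else 0
  | k + 1, a, b, c, d => TN a fun i => TN b fun j => TN c fun p => TN d fun q =>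
      if st i j p q ∧ i + j + p + q = m k then Nc m k (a - i) (b - j) (c - p) (d - q) else 0

theorem incl_excl (a b c d : ℕ) (H : ℕ → ℕ → ℕ → ℕ → ℤ) :
    (TZ a fun i => TZ b fun j => TZ c fun p => TZ d fun q =>
      if st i j p q then H i j p q else 0) =
    (TZ a fun i => TZ c fun p => H i 0 p 0) + (TZ a fun i => TZ d fun q => H i 0 0 q) +
    (TZ b fun j => TZ d fun q => H 0 j 0 q) - (TZ a fun i => H i 0 0 0) -
    (TZ d fun q => H 0 0 0 q) := by
  simp only [TZ, Finset.sum_range_succ', st]
  simp [mul_add, Finset.sum_add_distrib]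
  ring

theorem TZ_pick (c r i : ℕ) (X : ℕ → ℤ) :
    (TZ c fun p => if i + p = r then X p else 0) =
      if i ≤ r ∧ r - i ≤ c then (c.choose (r - i) : ℤ) * X (r - i) else 0 := by
  simp only [TZ]
  split_ifs with h
  · rw [Finset.sum_eq_single (r - i)]
    · rw [if_pos (by omega)]
    · intro p _ hp
      rw [if_neg (by omega), mul_zero]
    · intro hp
      rw [mem_range] at hp
      omega
  · refine Finset.sum_eq_zero fun p hp => ?_
    rw [mem_range] at hp
    rw [if_neg (by omega), mul_zero]

theorem tl_sum (a c r : ℕ) (F : ℕ → ℤ × ℕ) (ev : ℤ × ℕ → ℤ) :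
    ((tl a c r F).map ev).sum =
      ∑ i ∈ range (a + 1), if i ≤ r ∧ r - i ≤ c then ev (F i) else 0 := by
  have key : ∀ L : List ℕ, ((L.flatMap fun i => if i ≤ r ∧ r - i ≤ c then [F i] else []).map
      ev).sum = (L.map fun i => if i ≤ r ∧ r - i ≤ c then ev (F i) else 0).sum := by
    intro L
    induction L with
    | nil => rfl
    | cons x L ih =>
      rw [List.flatMap_cons, List.map_append, List.sum_append, ih, List.map_cons, List.sum_cons]
      congr 1
      split_ifs <;> simp
  rw [tl, key]
  exact (Multiset.sum_coe _).symm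

theorem terms_sum (a b c d r k : ℕ) :
    ((terms a b c d r).map fun t => t.1 * dig t.2 k).sum =
    TZ a fun i => TZ b fun j => TZ c fun p => TZ d fun q =>
      if st i j p q ∧ i + j + p + q = r then dig (Zf (a - i) (b - j) (c - p) (d - q)) k else 0 := by
  have e : (TZ a fun i => TZ b fun j => TZ c fun p => TZ d fun q =>
      if st i j p q ∧ i + j + p + q = r then dig (Zf (a - i) (b - j) (c - p) (d - q)) k else 0) =
      (TZ a fun i => TZ b fun j => TZ c fun p => TZ d fun q =>
      if st i j p q then (if i + j + p + q = r then dig (Zf (a - i) (b - j) (c - p) (d - q)) k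
        else 0) else 0) := by
    simp only [ite_and]
  rw [e, incl_excl, terms]
  simp only [List.map_append, List.sum_append, tl_sum, add_zero, Nat.sub_zero]
  simp only [TZ_pick, zero_add]
  have e1 : ∀ (x : ℕ), (∑ i ∈ range (0 + 1), if i ≤ r ∧ r - i ≤ d then
      -((d.choose (r - i) : ℕ) : ℤ) * dig (Zf a b c (d - (r - i))) k else 0) =
      - TZ d fun q => if q = r then dig (Zf a b c (d - q)) k else 0 := by
    intro _
    have h := TZ_pick d r 0 fun q => dig (Zf a b c (d - q)) k
    simp only [zero_add] at h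
    rw [h, zero_add, Finset.sum_range_one]
    simp only [Nat.sub_zero, Nat.zero_le, true_and]
    split_ifs <;> ring
  have e2 : (∑ i ∈ range (a + 1), if i ≤ r ∧ r - i ≤ 0 then
      -((a.choose i : ℕ) : ℤ) * dig (Zf (a - i) b c d) k else 0) =
      - TZ a fun i => if i = r then dig (Zf (a - i) b c d) k else 0 := by
    simp only [TZ]
    rw [← Finset.sum_neg_distrib]
    refine Finset.sum_congr rfl fun i _ => ?_
    by_cases h : i = r
    · rw [if_pos h, if_pos (by omega)]
      ring
    · rw [if_neg h, if_neg (by omega)]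
      ring
  rw [e1 0, e2]
  simp only [TZ]
  have e3 : ∀ x y z u v x' y' z' : ℤ, x = x' → y = y' → z = z' →
      x + y + z + -u + -v = x' + y' + z' - u - v := by
    intros
    subst_vars
    ring
  apply e3
  · refine Finset.sum_congr rfl fun i _ => ?_
    split_ifs
    · push_cast
      ring
    · ring
  · refine Finset.sum_congr rfl fun i _ => ?_
    split_ifs
    · push_cast
      ring
    · ring
  · refine Finset.sum_congr rfl fun i _ => ?_
    split_ifs
    · push_cast
      ring
    · ring

theorem chk_spec (a b c d : ℕ) (ha : a ≤ 4) (hb : b ≤ 2) (hc : c ≤ 2) (hd : d ≤ 5) :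
    chk a b c d = true := by
  have h : ∀ {x : ℕ}, ((List.range 3).all fun b => (List.range 3).all fun c =>
      (List.range 6).all fun d => chk x b c d) = true → chk x b c d = true := by
    intro x h
    rw [List.all_eq_true] at h
    have h1 := h b (by rw [List.mem_range]; omega)
    rw [List.all_eq_true] at h1
    have h2 := h1 c (by rw [List.mem_range]; omega)
    rw [List.all_eq_true] at h2
    exact h2 d (by rw [List.mem_range]; omega)
  have h4 : a = 0 ∨ a = 1 ∨ a = 2 ∨ a = 3 ∨ a = 4 := by omega
  rcases h4 with rfl | rfl | rfl | rfl | rfl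
  · exact h chk0
  · exact h chk1
  · exact h chk2
  · exact h chk3
  · exact h chk4

theorem chkR_spec (n r : ℕ) (hn : n ≤ 13) (hr : r ≤ n) : chkR n r = true := by
  have h := chkR_all
  rw [List.all_eq_true] at h
  have h1 := h n (by rw [List.mem_range]; omega)
  rw [List.all_eq_true] at h1
  exact h1 r (by rw [List.mem_range]; omega)

/-- the identity for the Schur coefficients -/
theorem D_g (a b c d r : ℕ) (ha : a ≤ 4) (hb : b ≤ 2) (hc : c ≤ 2) (hd : d ≤ 5)
    (ν : YoungDiagram) (hν : ν.cells.card + r = a + b + c + d) :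
    D r (fun ρ => g a b c d ρ.rowLens) ν =
    TZ a fun i => TZ b fun j => TZ c fun p => TZ d fun q =>
      if st i j p q ∧ i + j + p + q = r then g (a - i) (b - j) (c - p) (d - q) ν.rowLens
      else 0 := by
  have e : (TZ a fun i => TZ b fun j => TZ c fun p => TZ d fun q =>
      if st i j p q ∧ i + j + p + q = r then g (a - i) (b - j) (c - p) (d - q) ν.rowLens
      else 0) = TZ a fun i => TZ b fun j => TZ c fun p => TZ d fun q =>
      if st i j p q ∧ i + j + p + q = r then
        dig (Zf (a - i) (b - j) (c - p) (d - q)) (rk (a + b + c + d - r) ν.rowLens) else 0 := by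
    refine TZ_congr _ fun i hi => TZ_congr _ fun j hj => TZ_congr _ fun p hp =>
      TZ_congr _ fun q hq => ?_
    split_ifs with h
    · rw [g, show a - i + (b - j) + (c - p) + (d - q) = a + b + c + d - r by omega]
    · rfl
  rw [e, ← terms_sum, D_eq r (fun l => g a b c d l) ν, hν]
  have h1 := chk_spec a b c d ha hb hc hd
  rw [chk, List.all_eq_true] at h1
  have h2 := h1 r (by rw [List.mem_range]; omega)
  have h3 := chkR_spec (a + b + c + d) r (by omega) (by omega)
  rw [chkR, List.all_eq_true] at h3
  have h4 := h3 ν.rowLens (rowLens_mem_parts ν _ (by omega))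
  rw [decide_eq_true_eq] at h4
  have h5 := rows_spec _ _ _ 0 _ _ h2 h4
  rw [zero_add, List.map_map] at h5
  exact h5

theorem U_zero (a : ℤ) (f : YoungDiagram → ℤ) (ρ : YoungDiagram) (h : (ρ.cells.card : ℤ) < a) :
    U a f ρ = 0 := by
  unfold U
  apply Finset.sum_eq_zero
  intro ν hν
  rw [mem_filter] at hν
  have := hν.2
  omega

/-- The Schur expansion. -/
theorem Nc_eq (m : ℕ → ℕ) : ∀ (k a b c d : ℕ), a ≤ 4 → b ≤ 2 → c ≤ 2 → d ≤ 5 →
    (Nc m k a b c d : ℤ) =
      ∑ μ ∈ YD (a + b + c + d), KK (fun i => (m i : ℤ)) k μ * g a b c d μ.rowLens := by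
  intro k
  induction k with
  | zero =>
    intro a b c d ha hb hc hd
    rw [Nc]
    by_cases h : a = 0 ∧ b = 0 ∧ c = 0 ∧ d = 0
    · obtain ⟨rfl, rfl, rfl, rfl⟩ := h
      rw [if_pos ⟨rfl, rfl, rfl, rfl⟩, Finset.sum_eq_single ⊥]
      · rw [KK_zero_bot]
        have h1 : (⊥ : YoungDiagram).rowLens = [] := by
          apply List.eq_nil_of_length_eq_zero
          rw [YoungDiagram.length_rowLens]
          by_contra h
          have h1 : (0, 0) ∈ (⊥ : YoungDiagram) := YoungDiagram.mem_iff_lt_colLen.2 (by omega)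
          exact YoungDiagram.notMem_bot _ h1
        rw [h1]
        decide +kernel
      · intro μ _ hμ
        rw [KK_zero_ne _ hμ, zero_mul]
      · intro h
        exact absurd (mem_YD.2 rfl) h
    · rw [if_neg h, Finset.sum_eq_zero]
      · rfl
      · intro μ hμ
        rw [mem_YD] at hμ
        rw [KK_zero_ne, zero_mul]
        rintro rfl
        have h1 : (⊥ : YoungDiagram).cells.card = 0 := rfl
        omega
  | succ k ih =>
    intro a b c d ha hb hc hd
    rw [Nc]
    simp only [TN_cast]
    by_cases hr : m k ≤ a + b + c + d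
    · obtain ⟨n', hn'⟩ := Nat.exists_eq_add_of_le' hr
      have e1 : (TZ a fun i => TZ b fun j => TZ c fun p => TZ d fun q =>
          ((if st i j p q ∧ i + j + p + q = m k then Nc m k (a - i) (b - j) (c - p) (d - q) else 0 :
            ℕ) : ℤ)) =
          TZ a fun i => TZ b fun j => TZ c fun p => TZ d fun q =>
            ∑ ν ∈ YD n', KK (fun i => (m i : ℤ)) k ν *
              (if st i j p q ∧ i + j + p + q = m k then g (a - i) (b - j) (c - p) (d - q) ν.rowLens
              else 0) := by
        refine TZ_congr _ fun i hi => TZ_congr _ fun j hj => TZ_congr _ fun p hp =>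
          TZ_congr _ fun q hq => ?_
        split_ifs with h
        · rw [ih _ _ _ _ (by omega) (by omega) (by omega) (by omega)]
          rw [show a - i + (b - j) + (c - p) + (d - q) = n' by omega]
        · simp
      rw [e1]
      simp only [TZ_sum]
      rw [hn']
      rw [show (∑ x ∈ YD (n' + m k), KK (fun i => (m i : ℤ)) (k + 1) x * g a b c d x.rowLens) =
        ∑ x ∈ YD (n' + m k), U (m k) (KK (fun i => (m i : ℤ)) k) x * g a b c d x.rowLens from rfl]
      rw [sum_U_mul n' (m k) _ fun ρ => g a b c d ρ.rowLens]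
      refine Finset.sum_congr rfl fun ν hν => ?_
      rw [mem_YD] at hν
      rw [D_g a b c d (m k) ha hb hc hd ν (by omega)]
    · have e1 : (TZ a fun i => TZ b fun j => TZ c fun p => TZ d fun q =>
          ((if st i j p q ∧ i + j + p + q = m k then Nc m k (a - i) (b - j) (c - p) (d - q) else 0 :
            ℕ) : ℤ)) =
          TZ a fun i => TZ b fun j => TZ c fun p => TZ d fun q => 0 := by
        refine TZ_congr _ fun i hi => TZ_congr _ fun j hj => TZ_congr _ fun p hp =>
          TZ_congr _ fun q hq => ?_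
        rw [if_neg (by omega)]
        rfl
      rw [e1]
      simp only [TZ, mul_zero, Finset.sum_const_zero]
      symm
      refine Finset.sum_eq_zero fun ρ hρ => ?_
      rw [mem_YD] at hρ
      rw [KK, U_zero, zero_mul]
      omega

end Pool.Agent.L7lead.Mon
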