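import Mathlib
import Pool.Agent.L7lead.Mon.Alg

/-! # Colourings of the blow-up of the path -/

set_option autoImplicit false

namespace Pool.Agent.L7lead.Mon

open Finset Pool.Agent.R850.FG

/-- the part of a vertex -/
def ty (v : Fin 13) : ℕ := if v.1 < 4 then 0 else if v.1 < 6 then 1 else if v.1 < 8 then 2 else 3

/-- The blow-up of the path on four vertices by independent sets of sizes `4, 2, 2, 5`. -/
def G : SimpleGraph (Fin 13) where
  Adj u v := ty u + 1 = ty v ∨ ty v + 1 = ty u
  symm := ⟨fun _ _ h => h.symm⟩
  loopless := ⟨fun _ h => by rcases h with h | h <;> omega⟩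

theorem ty_le (v : Fin 13) : ty v ≤ 3 := by
  unfold ty
  split_ifs <;> omega

/-- number of vertices in the part -/
def cn (W : Finset (Fin 13)) (j : ℕ) : ℕ := (W.filter fun v => ty v = j).card

theorem TN_succ (w : ℕ) (h : ℕ → ℕ) : TN (w + 1) h = TN w h + TN w fun i => h (i + 1) := by
  simp only [TN]
  rw [Finset.sum_range_succ', Finset.sum_range_succ' (fun i => w.choose i * h i)]
  rw [Finset.sum_range_succ (fun i => w.choose i * h (i + 1)) w]
  rw [Finset.sum_range_succ]
  have : ∀ i, (w + 1).choose (i + 1) * h (i + 1) =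
      w.choose i * h (i + 1) + w.choose (i + 1) * h (i + 1) := by
    intro i
    rw [Nat.choose_succ_succ]
    ring
  simp only [this, Finset.sum_add_distrib, Nat.choose_zero_right, Nat.choose_succ_self]
  ring

theorem TN_add (w : ℕ) (h h' : ℕ → ℕ) : (TN w fun i => h i + h' i) = TN w h + TN w h' := by
  simp only [TN, mul_add, Finset.sum_add_distrib]

theorem cn_insert {x : Fin 13} {A : Finset (Fin 13)} (hx : x ∉ A) (j : ℕ) :
    cn (insert x A) j = if ty x = j then cn A j + 1 else cn A j := by
  unfold cn
  rw [Finset.filter_insert]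
  split_ifs with h
  · rw [Finset.card_insert_of_notMem]
    intro h2
    exact hx (mem_filter.1 h2).1
  · rfl

theorem powerset_sum (W : Finset (Fin 13)) : ∀ h : ℕ → ℕ → ℕ → ℕ → ℕ,
    ∑ A ∈ W.powerset, h (cn A 0) (cn A 1) (cn A 2) (cn A 3) =
      TN (cn W 0) fun i => TN (cn W 1) fun j => TN (cn W 2) fun p => TN (cn W 3) fun q =>
        h i j p q := by
  classical
  induction W using Finset.induction_on with
  | empty =>
    intro h
    simp [TN, cn]
  | insert x s hx ih =>
    intro h
    rw [Finset.sum_powerset_insert hx]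
    have h4 : ty x = 0 ∨ ty x = 1 ∨ ty x = 2 ∨ ty x = 3 := by
      have := ty_le x
      omega
    have e : ∑ A ∈ s.powerset, h (cn (insert x A) 0) (cn (insert x A) 1) (cn (insert x A) 2)
        (cn (insert x A) 3) = ∑ A ∈ s.powerset, h (if ty x = 0 then cn A 0 + 1 else cn A 0)
        (if ty x = 1 then cn A 1 + 1 else cn A 1) (if ty x = 2 then cn A 2 + 1 else cn A 2)
        (if ty x = 3 then cn A 3 + 1 else cn A 3) := by
      refine Finset.sum_congr rfl fun A hA => ?_
      rw [mem_powerset] at hA
      have hx' : x ∉ A := fun h => hx (hA h)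
      rw [cn_insert hx', cn_insert hx', cn_insert hx', cn_insert hx']
    rw [e, cn_insert hx, cn_insert hx, cn_insert hx, cn_insert hx, ih h]
    rcases h4 with h4 | h4 | h4 | h4
    · simp only [h4, if_true, zero_ne_one, if_false, OfNat.zero_ne_ofNat]
      rw [ih fun i j p q => h (i + 1) j p q, TN_succ]
    · simp only [h4, if_true, one_ne_zero, if_false, OfNat.one_ne_ofNat]
      rw [ih fun i j p q => h i (j + 1) p q]
      simp only [TN_succ, TN_add]
    · have e0 : ((2 : ℕ) = 0) = False := by simp
      have e1 : ((2 : ℕ) = 1) = False := by simp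
      have e3 : ((2 : ℕ) = 3) = False := by simp
      simp only [h4, if_true, e0, e1, e3, if_false]
      rw [ih fun i j p q => h i j (p + 1) q]
      simp only [TN_succ, TN_add]
    · have e0 : ((3 : ℕ) = 0) = False := by simp
      have e1 : ((3 : ℕ) = 1) = False := by simp
      have e3 : ((3 : ℕ) = 2) = False := by simp
      simp only [h4, if_true, e0, e1, e3, if_false]
      rw [ih fun i j p q => h i j p (q + 1)]
      simp only [TN_succ, TN_add]

theorem cn_eq_zero {A : Finset (Fin 13)} {j : ℕ} : cn A j = 0 ↔ ∀ v ∈ A, ty v ≠ j := by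
  rw [cn, Finset.card_eq_zero, Finset.filter_eq_empty_iff]

theorem stable_iff (A : Finset (Fin 13)) :
    (∀ u ∈ A, ∀ v ∈ A, ¬ G.Adj u v) ↔ st (cn A 0) (cn A 1) (cn A 2) (cn A 3) := by
  rw [st, cn_eq_zero, cn_eq_zero, cn_eq_zero, cn_eq_zero]
  constructor
  · intro h
    have key : ∀ j, (∀ v ∈ A, ty v ≠ j) ∨ ∀ v ∈ A, ty v ≠ j + 1 := by
      intro j
      by_contra hc
      push Not at hc
      obtain ⟨⟨u, hu, hu'⟩, v, hv, hv'⟩ := hc
      exact h u hu v hv (Or.inl (by rw [hu', hv']))
    exact ⟨key 0, key 1, key 2⟩
  · rintro ⟨h0, h1, h2⟩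
    have key : ∀ u ∈ A, ∀ v ∈ A, ty u + 1 ≠ ty v := by
      intro u hu v hv huv
      have h3 := ty_le u
      have h4 := ty_le v
      have h5 : ty u = 0 ∨ ty u = 1 ∨ ty u = 2 := by omega
      rcases h5 with h5 | h5 | h5
      · rcases h0 with h0 | h0
        · exact h0 u hu h5
        · exact h0 v hv (by omega)
      · rcases h1 with h0 | h0
        · exact h0 u hu h5
        · exact h0 v hv (by omega)
      · rcases h2 with h0 | h0
        · exact h0 u hu h5
        · exact h0 v hv (by omega)
    intro u hu v hv huv
    rcases huv with huv | huv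
    · exact key u hu v hv huv
    · exact key v hv u hu huv

theorem card_eq_cn (A : Finset (Fin 13)) : A.card = cn A 0 + cn A 1 + cn A 2 + cn A 3 := by
  rw [Finset.card_eq_sum_card_fiberwise (f := ty) (t := range 4)]
  · simp [Finset.sum_range_succ, cn]
  · intro v _
    have := ty_le v
    rw [mem_coe, mem_range]
    omega

theorem cn_sdiff {A W : Finset (Fin 13)} (h : A ⊆ W) (j : ℕ) : cn (W \ A) j = cn W j - cn A j := by
  unfold cn
  rw [← Finset.card_sdiff_of_subset (Finset.filter_subset_filter _ h)]
  congr 1
  ext v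
  simp only [mem_filter, mem_sdiff]
  tauto

open Classical in
/-- The proper colourings of `W` with the colours less than `k` and given contents. -/
noncomputable def Col (m : ℕ → ℕ) (k : ℕ) (W : Finset (Fin 13)) : Finset (Fin 13 → ℕ) :=
  (Fintype.piFinset fun v => if v ∈ W then range k else {0}).filter fun f =>
    (∀ u ∈ W, ∀ v ∈ W, G.Adj u v → f u ≠ f v) ∧ ∀ i < k, (W.filter fun v => f v = i).card = m i

theorem mem_Col {m : ℕ → ℕ} {k : ℕ} {W : Finset (Fin 13)} {f : Fin 13 → ℕ} :
    f ∈ Col m k W ↔ (∀ v ∈ W, f v < k) ∧ (∀ v, v ∉ W → f v = 0) ∧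
      (∀ u ∈ W, ∀ v ∈ W, G.Adj u v → f u ≠ f v) ∧
      ∀ i < k, (W.filter fun v => f v = i).card = m i := by
  classical
  rw [Col, mem_filter, Fintype.mem_piFinset, ← and_assoc (a := ∀ v ∈ W, f v < k)]
  refine and_congr_left fun _ => ?_
  constructor
  · intro h
    refine ⟨fun v hv => ?_, fun v hv => ?_⟩
    · have := h v
      rwa [if_pos hv, mem_range] at this
    · have := h v
      rwa [if_neg hv, mem_singleton] at this
  · rintro ⟨h1, h2⟩ v
    split_ifs with h
    · exact mem_range.2 (h1 v h)
    · exact mem_singleton.2 (h2 v h)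

theorem fiber_card (m : ℕ → ℕ) (k : ℕ) (W A : Finset (Fin 13)) (hA : A ⊆ W) :
    ((Col m (k + 1) W).filter fun f => (W.filter fun v => f v = k) = A).card =
      if st (cn A 0) (cn A 1) (cn A 2) (cn A 3) ∧ cn A 0 + cn A 1 + cn A 2 + cn A 3 = m k then
        (Col m k (W \ A)).card else 0 := by
  classical
  split_ifs with h
  · obtain ⟨hst, hsz⟩ := h
    rw [← stable_iff] at hst
    rw [← card_eq_cn] at hsz
    refine Finset.card_bij' (fun f _ v => if v ∈ A then 0 else f v)
      (fun f _ v => if v ∈ A then k else f v) ?_ ?_ ?_ ?_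
    · intro f hf
      rw [mem_filter, mem_Col] at hf
      obtain ⟨⟨h1, h2, h3, h4⟩, h5⟩ := hf
      have h5' : ∀ v ∈ W, (f v = k ↔ v ∈ A) := by
        intro v hv
        rw [← h5, mem_filter]
        tauto
      rw [mem_Col]
      refine ⟨?_, ?_, ?_, ?_⟩
      · intro v hv
        rw [mem_sdiff] at hv
        simp only [if_neg hv.2]
        have h6 := h1 v hv.1
        have h7 : f v ≠ k := fun h => hv.2 ((h5' v hv.1).1 h)
        omega
      · intro v hv
        by_cases hvA : v ∈ A
        · simp only [if_pos hvA]
        · simp only [if_neg hvA]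
          refine h2 v fun hvW => hv (mem_sdiff.2 ⟨hvW, hvA⟩)
      · intro u hu v hv huv
        rw [mem_sdiff] at hu hv
        simp only [if_neg hu.2, if_neg hv.2]
        exact h3 u hu.1 v hv.1 huv
      · intro i hi
        rw [← h4 i (by omega)]
        congr 1
        ext v
        simp only [mem_filter, mem_sdiff]
        constructor
        · rintro ⟨⟨h6, h7⟩, h8⟩
          rw [if_neg h7] at h8
          exact ⟨h6, h8⟩
        · rintro ⟨h6, h8⟩
          have h7 : v ∉ A := by
            rw [← h5' v h6]
            omega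
          rw [if_neg h7]
          exact ⟨⟨h6, h7⟩, h8⟩
    · intro f hf
      rw [mem_Col] at hf
      obtain ⟨h1, h2, h3, h4⟩ := hf
      have h6 : ∀ v ∈ W, v ∉ A → f v < k := fun v hv hvA => h1 v (mem_sdiff.2 ⟨hv, hvA⟩)
      have hfil : (W.filter fun v => (if v ∈ A then k else f v) = k) = A := by
        ext v
        rw [mem_filter]
        constructor
        · rintro ⟨h7, h8⟩
          by_contra hvA
          rw [if_neg hvA] at h8
          have := h6 v h7 hvA
          omega
        · intro hvA
          exact ⟨hA hvA, if_pos hvA⟩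
      rw [mem_filter, mem_Col]
      refine ⟨⟨?_, ?_, ?_, ?_⟩, hfil⟩
      · intro v hv
        by_cases hvA : v ∈ A
        · simp only [if_pos hvA]
          omega
        · simp only [if_neg hvA]
          have := h6 v hv hvA
          omega
      · intro v hv
        have hvA : v ∉ A := fun h => hv (hA h)
        simp only [if_neg hvA]
        exact h2 v fun h => hv (mem_sdiff.1 h).1
      · intro u hu v hv huv
        by_cases hua : u ∈ A
        · by_cases hva : v ∈ A
          · exact absurd huv (hst u hua v hva)
          · simp only [if_pos hua, if_neg hva]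
            have := h6 v hv hva
            omega
        · by_cases hva : v ∈ A
          · simp only [if_neg hua, if_pos hva]
            have := h6 u hu hua
            omega
          · simp only [if_neg hua, if_neg hva]
            exact h3 u (mem_sdiff.2 ⟨hu, hua⟩) v (mem_sdiff.2 ⟨hv, hva⟩) huv
      · intro i hi
        by_cases hik : i = k
        · subst hik
          rw [hfil]
          exact hsz
        · rw [← h4 i (by omega)]
          congr 1
          ext v
          simp only [mem_filter, mem_sdiff]
          constructor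
          · rintro ⟨h7, h8⟩
            by_cases hvA : v ∈ A
            · rw [if_pos hvA] at h8
              exact absurd h8.symm hik
            · rw [if_neg hvA] at h8
              exact ⟨⟨h7, hvA⟩, h8⟩
          · rintro ⟨⟨h7, hvA⟩, h8⟩
            rw [if_neg hvA]
            exact ⟨h7, h8⟩
    · intro f hf
      rw [mem_filter] at hf
      funext v
      by_cases hvA : v ∈ A
      · simp only [if_pos hvA]
        rw [← hf.2, mem_filter] at hvA
        exact hvA.2.symm
      · simp only [if_neg hvA]
    · intro f hf
      rw [mem_Col] at hf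
      funext v
      by_cases hvA : v ∈ A
      · simp only [if_pos hvA]
        exact (hf.2.1 v fun h => (mem_sdiff.1 h).2 hvA).symm
      · simp only [if_neg hvA]
  · rw [Finset.card_eq_zero, Finset.filter_eq_empty_iff]
    intro f hf hfA
    rw [mem_Col] at hf
    obtain ⟨h1, h2, h3, h4⟩ := hf
    apply h
    rw [← stable_iff, ← card_eq_cn]
    constructor
    · intro u hu v hv huv
      rw [← hfA, mem_filter] at hu hv
      exact h3 u hu.1 v hv.1 huv (hu.2.trans hv.2.symm)
    · rw [← h4 k (by omega), hfA]

theorem card_Col (m : ℕ → ℕ) (k : ℕ) : ∀ W : Finset (Fin 13),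
    (Col m k W).card = Nc m k (cn W 0) (cn W 1) (cn W 2) (cn W 3) := by
  classical
  induction k with
  | zero =>
    intro W
    rw [Nc]
    by_cases hW : W = ∅
    · subst hW
      rw [if_pos (by simp [cn])]
      rw [Finset.card_eq_one]
      refine ⟨fun _ => 0, ?_⟩
      ext f
      rw [mem_Col, mem_singleton]
      constructor
      · rintro ⟨_, h, _⟩
        funext v
        exact h v (by simp)
      · rintro rfl
        simp
    · rw [if_neg]
      · rw [Finset.card_eq_zero, Finset.eq_empty_iff_forall_notMem]
        intro f hf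
        rw [mem_Col] at hf
        obtain ⟨v, hv⟩ := Finset.nonempty_iff_ne_empty.2 hW
        have := hf.1 v hv
        omega
      · rintro ⟨h0, h1, h2, h3⟩
        apply hW
        rw [← Finset.card_eq_zero, card_eq_cn, h0, h1, h2, h3]
  | succ k ih =>
    intro W
    rw [Finset.card_eq_sum_card_fiberwise (f := fun f : Fin 13 → ℕ => W.filter fun v => f v = k)
      (t := W.powerset) (fun f _ => by
        rw [mem_coe, mem_powerset]
        exact Finset.filter_subset _ _)]
    have e : ∀ A ∈ W.powerset,
        ((Col m (k + 1) W).filter fun f => (W.filter fun v => f v = k) = A).card =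
        (fun i j p q => if st i j p q ∧ i + j + p + q = m k then
          Nc m k (cn W 0 - i) (cn W 1 - j) (cn W 2 - p) (cn W 3 - q) else 0)
          (cn A 0) (cn A 1) (cn A 2) (cn A 3) := by
      intro A hA
      rw [mem_powerset] at hA
      rw [fiber_card m k W A hA]
      simp only
      rw [ih, cn_sdiff hA, cn_sdiff hA, cn_sdiff hA, cn_sdiff hA]
    rw [Nc]
    exact (Finset.sum_congr rfl e).trans (powerset_sum W fun i j p q =>
      if st i j p q ∧ i + j + p + q = m k then
          Nc m k (cn W 0 - i) (cn W 1 - j) (cn W 2 - p) (cn W 3 - q) else 0)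

end Pool.Agent.L7lead.Mon
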