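import Mathlib
import Pool.Agent.L7lead.Mon.Color

/-! # Coefficients of the chromatic and of the Schur polynomials -/

set_option autoImplicit false

namespace Pool.Agent.L7lead.Mon

open Finset Pool.Agent.R850.FG

/-- content of a colouring -/
noncomputable def cont {k : ℕ} (κ : Fin 13 → Fin k) : ℕ →₀ ℕ :=
  ∑ v, Finsupp.single ((κ v : ℕ)) 1

theorem cont_apply {k : ℕ} (κ : Fin 13 → Fin k) (x : ℕ) :
    cont κ x = ((univ : Finset (Fin 13)).filter fun v => (κ v : ℕ) = x).card := by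
  classical
  rw [cont, Finsupp.finsetSum_apply, Finset.card_filter]
  refine Finset.sum_congr rfl fun c _ => ?_
  rw [Finsupp.single_apply]

theorem prod_X_eq {ι : Type*} (s : Finset ι) (f : ι → ℕ) :
    (∏ v ∈ s, (MvPolynomial.X (f v) : MvPolynomial ℕ ℤ)) =
      MvPolynomial.monomial (∑ v ∈ s, Finsupp.single (f v) 1) 1 := by
  classical
  induction s using Finset.induction_on with
  | empty => simp
  | insert a s ha ih =>
    rw [Finset.prod_insert ha, Finset.sum_insert ha, ih, MvPolynomial.X, MvPolynomial.monomial_mul,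
      one_mul]

theorem coeff_chrom_card (k : ℕ) (β : ℕ →₀ ℕ) :
    MvPolynomial.coeff β (∑ᶠ κ : {κ : Fin 13 → Fin k // ∀ u v, G.Adj u v → κ u ≠ κ v},
      ∏ v, (MvPolynomial.X ((κ.1 v : ℕ)) : MvPolynomial ℕ ℤ)) =
    (Nat.card {κ : Fin 13 → Fin k // (∀ u v, G.Adj u v → κ u ≠ κ v) ∧ cont κ = β} : ℤ) := by
  classical
  have : Fintype {κ : Fin 13 → Fin k // ∀ u v, G.Adj u v → κ u ≠ κ v} := Fintype.ofFinite _
  rw [finsum_eq_sum_of_fintype, MvPolynomial.coeff_sum]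
  have e : ∀ κ : {κ : Fin 13 → Fin k // ∀ u v, G.Adj u v → κ u ≠ κ v},
      MvPolynomial.coeff β (∏ v, (MvPolynomial.X ((κ.1 v : ℕ)) : MvPolynomial ℕ ℤ)) =
      if cont κ.1 = β then 1 else 0 := by
    intro κ
    rw [prod_X_eq, MvPolynomial.coeff_monomial]
    rfl
  rw [Finset.sum_congr rfl fun κ _ => e κ, Finset.sum_boole]
  congr 1
  rw [← Fintype.card_subtype, ← Nat.card_eq_fintype_card]
  exact Nat.card_congr
    { toFun := fun κ => ⟨κ.1.1, κ.1.2, κ.2⟩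
      invFun := fun κ => ⟨⟨κ.1, κ.2.1⟩, κ.2.2⟩
      left_inv := fun _ => rfl
      right_inv := fun _ => rfl }

theorem coeff_chrom (k : ℕ) (β : ℕ →₀ ℕ) (hβ : ∀ x, k ≤ x → β x = 0) :
    MvPolynomial.coeff β (∑ᶠ κ : {κ : Fin 13 → Fin k // ∀ u v, G.Adj u v → κ u ≠ κ v},
      ∏ v, (MvPolynomial.X ((κ.1 v : ℕ)) : MvPolynomial ℕ ℤ)) = (Nc β k 4 2 2 5 : ℤ) := by
  classical
  rw [coeff_chrom_card]
  congr 1
  have h0 : cn univ 0 = 4 := by decide
  have h1 : cn univ 1 = 2 := by decide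
  have h2 : cn univ 2 = 2 := by decide
  have h3 : cn univ 3 = 5 := by decide
  have h := card_Col β k univ
  rw [h0, h1, h2, h3] at h
  rw [← h, ← Fintype.card_coe, ← Nat.card_eq_fintype_card]
  refine Nat.card_congr
    { toFun := fun κ => ⟨fun v => (κ.1 v : ℕ), ?_⟩
      invFun := fun f => ⟨fun v => ⟨f.1 v, (mem_Col.1 f.2).1 v (mem_univ _)⟩, ?_, ?_⟩
      left_inv := fun _ => rfl
      right_inv := fun _ => rfl }
  · rw [mem_Col]
    refine ⟨fun v _ => (κ.1 v).2, fun v hv => absurd (mem_univ v) hv, fun u _ v _ huv h =>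
      κ.2.1 u v huv (Fin.ext h), fun i _ => ?_⟩
    rw [← cont_apply, κ.2.2]
  · intro u v huv h
    exact (mem_Col.1 f.2).2.2.1 u (mem_univ _) v (mem_univ _) huv (congrArg Fin.val h)
  · ext x
    rw [cont_apply]
    by_cases hx : x < k
    · exact (mem_Col.1 f.2).2.2.2 x hx
    · rw [hβ x (by omega), Finset.card_eq_zero, Finset.filter_eq_empty_iff]
      intro v _ hv
      have := (mem_Col.1 f.2).1 v (mem_univ _)
      simp only at hv
      omega

theorem coeff_chrom_out (k : ℕ) (β : ℕ →₀ ℕ) (x : ℕ) (hx : k ≤ x) (hβ : β x ≠ 0) :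
    MvPolynomial.coeff β (∑ᶠ κ : {κ : Fin 13 → Fin k // ∀ u v, G.Adj u v → κ u ≠ κ v},
      ∏ v, (MvPolynomial.X ((κ.1 v : ℕ)) : MvPolynomial ℕ ℤ)) = 0 := by
  rw [coeff_chrom_card]
  have : IsEmpty {κ : Fin 13 → Fin k // (∀ u v, G.Adj u v → κ u ≠ κ v) ∧ cont κ = β} := by
    refine ⟨fun κ => hβ ?_⟩
    rw [← κ.2.2, cont_apply, Finset.card_eq_zero, Finset.filter_eq_empty_iff]
    intro v _ hv
    have := (κ.1 v).2
    omega
  rw [Nat.card_of_isEmpty]
  rfl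

theorem finite_tab (μ : YoungDiagram) (k : ℕ) :
    Finite {T : SemistandardYoungTableau μ // ∀ p ∈ μ.cells, T p.1 p.2 < k} := by
  refine Finite.of_injective
    (β := μ.cells → Fin k) (fun T p => ⟨T.1 p.1.1 p.1.2, T.2 p.1 p.2⟩) ?_
  intro T T' h
  apply Subtype.ext
  ext i j
  by_cases hc : (i, j) ∈ μ
  · have := congrFun h ⟨(i, j), hc⟩
    exact congrArg Fin.val this
  · rw [T.1.zeros hc, T'.1.zeros hc]

theorem coeff_tab_card (μ : YoungDiagram) (k : ℕ) (β : ℕ →₀ ℕ) :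
    MvPolynomial.coeff β (∑ᶠ T : {T : SemistandardYoungTableau μ //
              ∀ p ∈ μ.cells, T p.1 p.2 < k},
            ∏ p ∈ μ.cells, (MvPolynomial.X (T.1 p.1 p.2) : MvPolynomial ℕ ℤ)) =
    (Nat.card {T : SemistandardYoungTableau μ // (∀ p ∈ μ.cells, T p.1 p.2 < k) ∧ ctab T = β} :
      ℤ) := by
  classical
  have := finite_tab μ k
  have : Fintype {T : SemistandardYoungTableau μ // ∀ p ∈ μ.cells, T p.1 p.2 < k} :=
    Fintype.ofFinite _
  rw [finsum_eq_sum_of_fintype, MvPolynomial.coeff_sum]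
  have e : ∀ T : {T : SemistandardYoungTableau μ // ∀ p ∈ μ.cells, T p.1 p.2 < k},
      MvPolynomial.coeff β (∏ p ∈ μ.cells, (MvPolynomial.X (T.1 p.1 p.2) : MvPolynomial ℕ ℤ)) =
      if ctab T.1 = β then 1 else 0 := by
    intro T
    rw [prod_X_eq, MvPolynomial.coeff_monomial]
    rfl
  rw [Finset.sum_congr rfl fun κ _ => e κ, Finset.sum_boole]
  congr 1
  rw [← Fintype.card_subtype, ← Nat.card_eq_fintype_card]
  exact Nat.card_congr
    { toFun := fun κ => ⟨κ.1.1, κ.1.2, κ.2⟩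
      invFun := fun κ => ⟨⟨κ.1, κ.2.1⟩, κ.2.2⟩
      left_inv := fun _ => rfl
      right_inv := fun _ => rfl }

theorem coeff_tab (μ : YoungDiagram) (k : ℕ) (β : ℕ →₀ ℕ) (hβ : ∀ x, k ≤ x → β x = 0) :
    MvPolynomial.coeff β (∑ᶠ T : {T : SemistandardYoungTableau μ //
              ∀ p ∈ μ.cells, T p.1 p.2 < k},
            ∏ p ∈ μ.cells, (MvPolynomial.X (T.1 p.1 p.2) : MvPolynomial ℕ ℤ)) =
    KK (fun i => (β i : ℤ)) k μ := by
  rw [coeff_tab_card, ← (card_tab k μ β hβ).2]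
  congr 1
  refine Nat.card_congr (Equiv.subtypeEquivRight fun T => ?_)
  refine and_iff_right_of_imp fun h p hp => ?_
  exact ctab_lt T β h k hβ hp

theorem coeff_tab_out (μ : YoungDiagram) (k : ℕ) (β : ℕ →₀ ℕ) (x : ℕ) (hx : k ≤ x)
    (hβ : β x ≠ 0) :
    MvPolynomial.coeff β (∑ᶠ T : {T : SemistandardYoungTableau μ //
              ∀ p ∈ μ.cells, T p.1 p.2 < k},
            ∏ p ∈ μ.cells, (MvPolynomial.X (T.1 p.1 p.2) : MvPolynomial ℕ ℤ)) = 0 := by
  rw [coeff_tab_card]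
  have : IsEmpty {T : SemistandardYoungTableau μ // (∀ p ∈ μ.cells, T p.1 p.2 < k) ∧
      ctab T = β} := by
    refine ⟨fun T => hβ ?_⟩
    rw [← T.2.2, ctab_apply, Finset.card_eq_zero, Finset.filter_eq_empty_iff]
    intro p hp hv
    have := T.2.1 p hp
    omega
  rw [Nat.card_of_isEmpty]
  rfl

theorem g_nonneg (μ : YoungDiagram) (h : μ.cells.card = 13) : 0 ≤ g 4 2 2 5 μ.rowLens := by
  have h1 := chkPos_all
  rw [chkPos, List.all_eq_true] at h1
  have h2 := h1 μ.rowLens (rowLens_mem_parts μ 13 h)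
  exact of_decide_eq_true h2

/-- The chromatic symmetric function is Schur-positive. -/
theorem schur_pos (k : ℕ) : ∃ c : YoungDiagram →₀ ℕ,
    (∑ᶠ κ : {κ : Fin 13 → Fin k // ∀ u v, G.Adj u v → κ u ≠ κ v},
        ∏ v, (MvPolynomial.X ((κ.1 v : ℕ)) : MvPolynomial ℕ ℤ)) =
      c.sum (fun μ a => a • ∑ᶠ T : {T : SemistandardYoungTableau μ //
          ∀ p ∈ μ.cells, T p.1 p.2 < k},
        ∏ p ∈ μ.cells, (MvPolynomial.X (T.1 p.1 p.2) : MvPolynomial ℕ ℤ)) := by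
  classical
  refine ⟨Finsupp.onFinset (YD 13)
    (fun μ => if μ ∈ YD 13 then (g 4 2 2 5 μ.rowLens).toNat else 0) (fun μ h => by
      by_contra hμ
      rw [if_neg hμ] at h
      exact h rfl), ?_⟩
  have key : ∀ (f : YoungDiagram → ℕ) (hf : ∀ μ, f μ ≠ 0 → μ ∈ YD 13)
      (F : YoungDiagram → MvPolynomial ℕ ℤ),
      (Finsupp.onFinset (YD 13) f hf).sum (fun μ a => a • F μ) = ∑ μ ∈ YD 13, f μ • F μ := by
    intro f hf F
    exact Finsupp.onFinset_sum hf fun μ => zero_smul _ _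
  rw [key]
  ext β
  rw [MvPolynomial.coeff_sum]
  simp only [MvPolynomial.coeff_smul]
  by_cases hβ : ∀ x, k ≤ x → β x = 0
  · rw [coeff_chrom k β hβ, Nc_eq β k 4 2 2 5 le_rfl le_rfl le_rfl le_rfl]
    refine Finset.sum_congr rfl fun μ hμ => ?_
    rw [if_pos hμ, coeff_tab μ k β hβ, nsmul_eq_mul, mul_comm]
    congr 1
    rw [mem_YD] at hμ
    exact (Int.toNat_of_nonneg (g_nonneg μ hμ)).symm
  · push Not at hβ
    obtain ⟨x, hx, hx2⟩ := hβ
    rw [coeff_chrom_out k β x hx hx2]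
    symm
    refine Finset.sum_eq_zero fun μ _ => ?_
    rw [coeff_tab_out μ k β x hx hx2, smul_zero]

/-- exponent vector -/
noncomputable def ex (a b c : ℕ) : ℕ →₀ ℕ :=
  Finsupp.single 0 a + Finsupp.single 1 b + Finsupp.single 2 c

theorem ex_out (a b c x : ℕ) (hx : 3 ≤ x) : ex a b c x = 0 := by
  have h0 : x ≠ 0 := by omega
  have h1 : x ≠ 1 := by omega
  have h2 : x ≠ 2 := by omega
  simp [ex, Ne.symm h0, Ne.symm h1, Ne.symm h2]

theorem Nc_congr (m m' : ℕ → ℕ) : ∀ (k a b c d : ℕ), (∀ i < k, m i = m' i) →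
    Nc m k a b c d = Nc m' k a b c d
  | 0, _, _, _, _, _ => rfl
  | k + 1, a, b, c, d, h => by
    rw [Nc, Nc, h k (by omega)]
    simp only [fun a b c d => Nc_congr m m' k a b c d fun i hi => h i (by omega)]

/-- explicit content -/
def fm (a b c : ℕ) (i : ℕ) : ℕ := if i = 0 then a else if i = 1 then b else if i = 2 then c else 0

theorem ex_eq (a b c i : ℕ) : ex a b c i = fm a b c i := by
  unfold fm
  rcases i with _ | _ | _ | i
  · simp [ex]
  · simp [ex]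
  · simp [ex]
  · rw [ex_out _ _ _ _ (by omega)]
    simp

theorem mem_support_iff (a b c : ℕ) :
    ex a b c ∈ (∑ᶠ κ : {κ : Fin 13 → Fin 3 // ∀ u v, G.Adj u v → κ u ≠ κ v},
      ∏ v, (MvPolynomial.X ((κ.1 v : ℕ)) : MvPolynomial ℕ ℤ)).support ↔
    Nc (fm a b c) 3 4 2 2 5 ≠ 0 := by
  rw [MvPolynomial.mem_support_iff, coeff_chrom 3 _ (fun x hx => ex_out a b c x hx),
    Nc_congr _ (fm a b c) 3 4 2 2 5 fun i _ => ex_eq a b c i]
  exact Nat.cast_ne_zero

theorem n1 : Nc (fm 9 2 2) 3 4 2 2 5 ≠ 0 := by decide +kernel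

theorem n2 : Nc (fm 7 6 0) 3 4 2 2 5 ≠ 0 := by decide +kernel

theorem n3 : Nc (fm 8 4 1) 3 4 2 2 5 = 0 := by decide +kernel

end Pool.Agent.L7lead.Mon
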