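import Mathlib
import Pool.Agent.R850.FG.SSYT

/-! # Horizontal strips on lists of row lengths -/

set_option autoImplicit false

namespace Pool.Agent.L7lead.Mon

open Finset Pool.Agent.R850.FG

/-- The lists of row lengths which arise by adding a horizontal strip of `r` cells, the first row
being at most `cap`. -/
def ups : ℕ → ℕ → List ℕ → List (List ℕ)
  | cap, r, [] => if r = 0 then [[]] else if r ≤ cap then [[r]] else []
  | cap, r, (b :: t) =>
    (List.range (min r (cap - b) + 1)).flatMap fun x => (ups b (r - x) t).map fun l => (b + x) :: l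

/-- interlacing -/
def Strip (cap : ℕ) (l l' : List ℕ) : Prop :=
  l'.getD 0 0 ≤ cap ∧ ∀ i, l'.getD (i + 1) 0 ≤ l.getD i 0 ∧ l.getD i 0 ≤ l'.getD i 0

theorem strip_cons (cap b : ℕ) (t : List ℕ) (c : ℕ) (s : List ℕ) :
    Strip cap (b :: t) (c :: s) ↔ c ≤ cap ∧ b ≤ c ∧ Strip b t s := by
  constructor
  · rintro ⟨h1, h2⟩
    refine ⟨h1, (h2 0).2, (h2 0).1, fun i => ?_⟩
    exact h2 (i + 1)
  · rintro ⟨h1, h2, h3, h4⟩
    refine ⟨h1, fun i => ?_⟩
    rcases i with _ | i
    · exact ⟨h3, h2⟩
    · exact h4 i

theorem mem_ups : ∀ (l : List ℕ) (cap r : ℕ) (l' : List ℕ), (cap :: l).Pairwise (· ≥ ·) →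
    (∀ x ∈ l, 0 < x) →
    (l' ∈ ups cap r l ↔ (∀ x ∈ l', 0 < x) ∧ Strip cap l l' ∧ l'.sum = l.sum + r)
  | [], cap, r, l', _, _ => by
    rw [ups]
    rcases l' with _ | ⟨c, s⟩
    · have h1 : Strip cap [] [] := ⟨Nat.zero_le _, fun i => ⟨le_rfl, le_rfl⟩⟩
      split_ifs with h2 h3
      · simp [h1, h2]
      · simp [Ne.symm h2]
      · simp [Ne.symm h2]
    · rcases s with _ | ⟨d, s⟩
      · have h1 : Strip cap [] [c] ↔ c ≤ cap := by
          constructor
          · exact fun h => h.1
          · refine fun h => ⟨h, fun i => ⟨le_rfl, Nat.zero_le _⟩⟩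
        rw [h1]
        split_ifs with h2 h3
        · subst h2
          simp
          omega
        · simp
          omega
        · simp
          omega
      · have h1 : ¬ ((∀ x ∈ c :: d :: s, 0 < x) ∧ Strip cap [] (c :: d :: s) ∧
            (c :: d :: s).sum = ([] : List ℕ).sum + r) := by
          rintro ⟨h1, h2, _⟩
          have h3 : 0 < d := h1 d (by simp)
          have h4 : d ≤ 0 := (h2.2 0).1
          omega
        rw [iff_false_right h1]
        split_ifs <;> simp
  | b :: t, cap, r, l', hs, hp => by
    have hb : 0 < b := hp b (by simp)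
    have hbc : b ≤ cap := (List.pairwise_cons.1 hs).1 b (by simp)
    have hs' : (b :: t).Pairwise (· ≥ ·) := (List.pairwise_cons.1 hs).2
    have hp' : ∀ x ∈ t, 0 < x := fun x hx => hp x (by simp [hx])
    rw [ups, List.mem_flatMap]
    rcases l' with _ | ⟨c, s⟩
    · constructor
      · rintro ⟨x, _, hx⟩
        simp at hx
      · rintro ⟨_, h2, _⟩
        have h3 : b ≤ 0 := (h2.2 0).2
        omega
    · rw [strip_cons]
      constructor
      · rintro ⟨x, hx, hx2⟩
        rw [List.mem_range] at hx
        rw [List.mem_map] at hx2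
        obtain ⟨s', hs1, hs2⟩ := hx2
        rw [mem_ups t b (r - x) s' hs' hp'] at hs1
        obtain ⟨rfl, rfl⟩ := List.cons.inj hs2
        obtain ⟨h1, h2, h3⟩ := hs1
        refine ⟨?_, ⟨by omega, by omega, h2⟩, ?_⟩
        · intro y hy
          rcases List.mem_cons.1 hy with rfl | hy
          · omega
          · exact h1 y hy
        · rw [List.sum_cons, List.sum_cons, h3]
          omega
      · rintro ⟨h1, ⟨h2, h3, h4⟩, h5⟩
        rw [List.sum_cons, List.sum_cons] at h5
        have h6 : t.sum ≤ s.sum := by
          clear h5 h1 hs hp hs' hp'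
          have key : ∀ (t s : List ℕ) (b : ℕ), Strip b t s → t.sum ≤ s.sum := by
            intro t
            induction t with
            | nil => intro s b _; simp
            | cons a t ih =>
              intro s b h
              rcases s with _ | ⟨e, s⟩
              · have h1 : a ≤ 0 := (h.2 0).2
                have h2 : Strip a t [] := by
                  refine ⟨Nat.zero_le _, fun i => ⟨Nat.zero_le _, ?_⟩⟩
                  exact (h.2 (i + 1)).2
                have := ih [] a h2
                simp only [List.sum_cons, List.sum_nil] at this ⊢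
                omega
              · rw [strip_cons] at h
                have := ih s a h.2.2
                simp only [List.sum_cons]
                omega
          exact key t s b h4
        refine ⟨c - b, ?_, ?_⟩
        · rw [List.mem_range]
          omega
        · rw [List.mem_map]
          refine ⟨s, ?_, ?_⟩
          · rw [mem_ups t b _ s hs' hp']
            refine ⟨fun y hy => h1 y (by simp [hy]), h4, ?_⟩
            omega
          · rw [show b + (c - b) = c by omega]

theorem nodup_ups : ∀ (l : List ℕ) (cap r : ℕ), (ups cap r l).Nodup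
  | [], cap, r => by
    rw [ups]
    split_ifs <;> simp
  | b :: t, cap, r => by
    rw [ups, List.nodup_flatMap]
    constructor
    · intro x _
      refine (nodup_ups t b (r - x)).map fun a a' h => (List.cons.inj h).2
    · refine List.nodup_range.imp_of_mem fun {a a'} _ _ hne => ?_
      rw [Function.onFun, List.disjoint_left]
      intro l h1 h2
      rw [List.mem_map] at h1 h2
      obtain ⟨s, _, rfl⟩ := h1
      obtain ⟨s', _, h⟩ := h2
      have := (List.cons.inj h).1
      omega

theorem rowLens_getD (μ : YoungDiagram) (i : ℕ) : μ.rowLens.getD i 0 = μ.rowLen i := by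
  by_cases h : i < μ.rowLens.length
  · rw [List.getD_eq_getElem _ _ h, YoungDiagram.get_rowLens]
  · rw [List.getD_eq_default _ _ (not_lt.1 h)]
    rw [YoungDiagram.length_rowLens, ← YoungDiagram.mem_iff_lt_colLen,
      YoungDiagram.mem_iff_lt_rowLen] at h
    omega

theorem rowLens_sum (μ : YoungDiagram) : μ.rowLens.sum = μ.cells.card := by
  have h : μ.rowLen (μ.colLen 0) = 0 := by
    by_contra h
    have h1 : (μ.colLen 0, 0) ∈ μ := YoungDiagram.mem_iff_lt_rowLen.2 (by omega)
    rw [YoungDiagram.mem_iff_lt_colLen] at h1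
    omega
  rw [card_eq_sum μ _ h, YoungDiagram.rowLens]
  exact (Multiset.sum_coe _).symm

theorem rowLens_inj {μ ν : YoungDiagram} (h : μ.rowLens = ν.rowLens) : μ = ν := by
  apply ext_rowLen
  intro i
  rw [← rowLens_getD, ← rowLens_getD, h]

/-- A sum over the diagrams above `ν` as a sum over a list. -/
theorem D_eq (r : ℕ) (g : List ℕ → ℤ) (ν : YoungDiagram) :
    D r (fun ρ => g ρ.rowLens) ν =
      ((ups (ν.cells.card + r) r ν.rowLens).map g).sum := by
  classical
  have hs : ((ν.cells.card + r) :: ν.rowLens).Pairwise (· ≥ ·) := by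
    rw [List.pairwise_cons]
    refine ⟨fun x hx => ?_, ν.rowLens_sorted.pairwise⟩
    have := List.single_le_sum (l := ν.rowLens) (fun y _ => Nat.zero_le y) x hx
    rw [rowLens_sum] at this
    show x ≤ _
    omega
  have e : ((ups (ν.cells.card + r) r ν.rowLens).map g).sum =
      ∑ l ∈ (ups (ν.cells.card + r) r ν.rowLens).toFinset, g l :=
    (List.sum_toFinset g (nodup_ups _ _ _)).symm
  rw [e, D]
  have e2 : (ups (ν.cells.card + r) r ν.rowLens).toFinset =
      ((YD (ν.cells.card + r)).filter fun ρ => IL ν ρ).image YoungDiagram.rowLens := by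
    ext l
    rw [List.mem_toFinset, mem_ups _ _ _ _ hs ν.pos_of_mem_rowLens, mem_image]
    constructor
    · rintro ⟨h1, h2, h3⟩
      have hsort : l.SortedGE := by
        rw [List.sortedGE_iff_isChain, List.isChain_iff_getElem]
        intro i hi
        have h4 := h2.2 i
        rw [List.getD_eq_getElem _ _ (by omega : i < l.length),
          List.getD_eq_getElem _ _ (by omega : i + 1 < l.length)] at h4
        exact h4.1.trans h4.2
      refine ⟨YoungDiagram.ofRowLens l hsort, ?_, YoungDiagram.rowLens_ofRowLens_eq_self h1⟩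
      rw [mem_filter, mem_YD, ← rowLens_sum, YoungDiagram.rowLens_ofRowLens_eq_self h1, h3,
        rowLens_sum]
      refine ⟨rfl, fun i => ?_⟩
      rw [← rowLens_getD, ← rowLens_getD, ← rowLens_getD,
        YoungDiagram.rowLens_ofRowLens_eq_self h1]
      exact h2.2 i
    · rintro ⟨ρ, h1, rfl⟩
      rw [mem_filter, mem_YD] at h1
      obtain ⟨h1, h2⟩ := h1
      refine ⟨ρ.pos_of_mem_rowLens, ⟨?_, fun i => ?_⟩, ?_⟩
      · by_cases h0 : ρ.rowLens.getD 0 0 = 0
        · rw [h0]
          exact Nat.zero_le _
        · rw [rowLens_getD, ← h1, YoungDiagram.rowLen_eq_card]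
          exact Finset.card_le_card (Finset.filter_subset _ _)
      · rw [rowLens_getD, rowLens_getD, rowLens_getD]
        exact h2 i
      · rw [rowLens_sum, rowLens_sum, h1]
  rw [e2, Finset.sum_image fun a _ b _ h => rowLens_inj h]

/-- All partitions of `n` with parts at most `cap` (with fuel). -/
def parts : ℕ → ℕ → ℕ → List (List ℕ)
  | 0, n, _ => if n = 0 then [[]] else []
  | f + 1, n, cap => if n = 0 then [[]] else
      (List.range (min n cap)).flatMap fun x =>
        (parts f (n - (x + 1)) (x + 1)).map fun l => (x + 1) :: l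

theorem mem_parts : ∀ (l : List ℕ) (f n cap : ℕ), (cap :: l).Pairwise (· ≥ ·) → (∀ x ∈ l, 0 < x) →
    l.sum = n → n ≤ f → l ∈ parts f n cap
  | [], f, n, cap, _, _, hn, _ => by
    simp only [List.sum_nil] at hn
    subst hn
    cases f <;> simp [parts]
  | b :: t, f, n, cap, hs, hp, hn, hf => by
    have hb : 0 < b := hp b (by simp)
    have hbc : b ≤ cap := (List.pairwise_cons.1 hs).1 b (by simp)
    have hs' : (b :: t).Pairwise (· ≥ ·) := (List.pairwise_cons.1 hs).2
    have hp' : ∀ x ∈ t, 0 < x := fun x hx => hp x (by simp [hx])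
    rw [List.sum_cons] at hn
    rcases f with _ | f
    · omega
    · rw [parts, if_neg (by omega), List.mem_flatMap]
      refine ⟨b - 1, ?_, ?_⟩
      · rw [List.mem_range]
        omega
      · rw [List.mem_map]
        refine ⟨t, mem_parts t f _ _ ?_ hp' ?_ ?_, ?_⟩
        · rw [show b - 1 + 1 = b by omega]
          exact hs'
        · omega
        · omega
        · rw [show b - 1 + 1 = b by omega]

theorem rowLens_mem_parts (μ : YoungDiagram) (n : ℕ) (h : μ.cells.card = n) :
    μ.rowLens ∈ parts n n n := by
  refine mem_parts _ _ _ _ ?_ μ.pos_of_mem_rowLens (by rw [rowLens_sum, h]) le_rfl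
  rw [List.pairwise_cons]
  refine ⟨fun x hx => ?_, μ.rowLens_sorted.pairwise⟩
  have := List.single_le_sum (l := μ.rowLens) (fun y _ => Nat.zero_le y) x hx
  rw [rowLens_sum] at this
  show x ≤ _
  omega

end Pool.Agent.L7lead.Mon
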